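import Mathlib

namespace Pool.Agent.H.MP_40785c_co

open Finset SimpleGraph

variable {V : Type} [DecidableEq V] {G : SimpleGraph V}

/-- Vertex sets obtained from single vertices by joining along a unique edge. -/
inductive Tr (G : SimpleGraph V) : Finset V → Prop
  | single (x : V) : Tr G {x}
  | join {S T : Finset V} (a b : V) : Tr G S → Tr G T → Disjoint S T → a ∈ S → b ∈ T →
      G.Adj a b → (∀ x ∈ S, ∀ y ∈ T, G.Adj x y → x = a ∧ y = b) → Tr G (S ∪ T)

open Classical in
lemma Tr.inv {S : Finset V} (h : Tr G S) : (G.induce (S : Set V)).Connected ∧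
    ∑ x ∈ S, ∑ y ∈ S, (if G.Adj x y then 1 else 0) + 2 = 2 * S.card := by
  induction h with
  | single x =>
    refine ⟨?_, by simp⟩
    rw [coe_singleton]
    exact Connected.of_subsingleton
  | @join S T a b _ _ hd ha hb hab hu h1 h2 =>
    refine ⟨?_, ?_⟩
    · rw [coe_union]
      exact connected_induce_union h1.1.preconnected h2.1.preconnected ha hb hab
    · have e1 : ∑ x ∈ S, ∑ y ∈ T, (if G.Adj x y then 1 else 0) = 1 := by
        rw [sum_eq_single_of_mem a ha, sum_eq_single_of_mem b hb, if_pos hab]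
        · exact fun y hy hne => if_neg fun h => hne (hu a ha y hy h).2
        · exact fun x hx hne => sum_eq_zero fun y hy => if_neg fun h => hne (hu x hx y hy h).1
      have e2 : ∑ x ∈ T, ∑ y ∈ S, (if G.Adj x y then 1 else 0) = 1 := by
        rw [sum_comm]
        refine Eq.trans ?_ e1
        simp only [G.adj_comm]
      simp only [sum_union hd, sum_add_distrib, card_union_of_disjoint hd, e1, e2]
      have := h1.2
      have := h2.2
      omega

lemma Tr.isTree {S : Finset V} (h : Tr G S) : (G.induce (S : Set V)).IsTree := by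
  classical
  obtain ⟨h1, h2⟩ := h.inv
  rw [isTree_iff_connected_and_card]
  refine ⟨h1, ?_⟩
  have e := (G.induce (S : Set V)).two_mul_card_edgeFinset
  rw [card_filter, Fintype.sum_prod_type] at e
  have e2 : ∑ x : (S : Set V), ∑ y : (S : Set V),
      (if (G.induce (S : Set V)).Adj x y then 1 else 0) =
      ∑ x ∈ S, ∑ y ∈ S, (if G.Adj x y then 1 else 0) := by
    rw [← sum_coe_sort S]
    refine sum_congr rfl fun x _ => ?_
    rw [← sum_coe_sort S]
    rfl
  rw [Nat.card_eq_fintype_card, ← edgeFinset_card, Nat.card_eq_fintype_card]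
  simp only [coe_sort_coe, Fintype.card_coe]
  have e3 := e.trans e2
  omega

lemma Tr.map {A : Set V} {S : Finset A} (h : Tr (G.induce A) S) :
    Tr G (S.map (Function.Embedding.subtype _)) := by
  induction h with
  | single x => exact Tr.single _
  | @join S T a b _ _ hd ha hb hab hu h1 h2 =>
    rw [map_union]
    refine Tr.join a.1 b.1 h1 h2 ((disjoint_map _).2 hd) (mem_map_of_mem _ ha)
      (mem_map_of_mem _ hb) hab ?_
    simp only [mem_map]
    rintro _ ⟨x, hx, rfl⟩ _ ⟨y, hy, rfl⟩ hxy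
    obtain ⟨rfl, rfl⟩ := hu x hx y hy hxy
    exact ⟨rfl, rfl⟩

/-- `f 0, …, f (N-1)` is an induced path. -/
structure IP (G : SimpleGraph V) (f : ℕ → V) (N : ℕ) : Prop where
  inj : ∀ s t, s < N → t < N → f s = f t → s = t
  adj : ∀ s t, s < N → t < N → (G.Adj (f s) (f t) ↔ s + 1 = t ∨ t + 1 = s)

/-- A segment of a path. -/
def seg (f : ℕ → V) (i j : ℕ) : Finset V := (Ico i j).image f

lemma mem_seg {f : ℕ → V} {i j : ℕ} {x : V} : x ∈ seg f i j ↔ ∃ t, i ≤ t ∧ t < j ∧ f t = x := by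
  simp [seg, and_assoc]

lemma IP.card {f : ℕ → V} {N : ℕ} (h : IP G f N) {i j : ℕ} (hj : j ≤ N) :
    (seg f i j).card = j - i := by
  rw [seg, card_image_of_injOn, Nat.card_Ico]
  intro s hs t ht e
  simp only [coe_Ico, Set.mem_Ico] at hs ht
  exact h.inj s t (by omega) (by omega) e

lemma IP.tr {f : ℕ → V} {N : ℕ} (h : IP G f N) {i j : ℕ} (hij : i < j) (hj : j ≤ N) :
    Tr G (seg f i j) := by
  induction j, hij using Nat.le_induction with
  | base => simpa [seg] using Tr.single _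
  | succ j hij ih =>
    have e : seg f i (j + 1) = seg f i j ∪ {f j} := by
      ext x
      simp only [mem_union, mem_seg, mem_singleton]
      constructor
      · rintro ⟨t, h1, h2, rfl⟩
        by_cases e : t = j
        · right; rw [e]
        · left; exact ⟨t, h1, by omega, rfl⟩
      · rintro (⟨t, h1, h2, rfl⟩ | rfl)
        · exact ⟨t, h1, by omega, rfl⟩
        · exact ⟨j, by omega, by omega, rfl⟩
    rw [e]
    refine Tr.join (f (j - 1)) (f j) (ih (by omega)) (Tr.single _) ?_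
      (mem_seg.2 ⟨j - 1, by omega, by omega, rfl⟩) (mem_singleton_self _)
      ((h.adj _ _ (by omega) (by omega)).2 (by omega)) ?_
    · rw [disjoint_singleton_right, mem_seg]
      rintro ⟨t, h1, h2, e⟩
      have := h.inj t j (by omega) (by omega) e
      omega
    · simp only [mem_seg, mem_singleton]
      rintro _ ⟨t, h1, h2, rfl⟩ _ rfl hxy
      have := (h.adj _ _ (by omega) (by omega)).1 hxy
      exact ⟨by congr 1; omega, rfl⟩

/-- There is an induced tree with at least `k` vertices. -/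
def Big (G : SimpleGraph V) (k : ℕ) : Prop := ∃ S, Tr G S ∧ k ≤ S.card

lemma two_seg {f g : ℕ → V} {N M : ℕ} (hf : IP G f N) (hg : IP G g M) {i j i' j' a b k : ℕ}
    (hj : j ≤ N) (hj' : j' ≤ M) (ha : i ≤ a) (ha' : a < j) (hb : i' ≤ b) (hb' : b < j')
    (hab : G.Adj (f a) (g b))
    (hne : ∀ s t, i ≤ s → s < j → i' ≤ t → t < j' → f s ≠ g t)
    (hu : ∀ s t, i ≤ s → s < j → i' ≤ t → t < j' → G.Adj (f s) (g t) → s = a ∧ t = b)
    (hk : k ≤ j - i + (j' - i')) : Big G k := by
  have hd : Disjoint (seg f i j) (seg g i' j') := by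
    rw [Finset.disjoint_left]
    simp only [mem_seg]
    rintro _ ⟨s, h1, h2, rfl⟩ ⟨t, h3, h4, e⟩
    exact hne s t h1 h2 h3 h4 e.symm
  refine ⟨_, Tr.join (f a) (g b) (hf.tr (by omega) hj) (hg.tr (by omega) hj') hd
    (mem_seg.2 ⟨a, ha, ha', rfl⟩) (mem_seg.2 ⟨b, hb, hb', rfl⟩) hab ?_, ?_⟩
  · simp only [mem_seg]
    rintro _ ⟨s, h1, h2, rfl⟩ _ ⟨t, h3, h4, rfl⟩ hxy
    obtain ⟨rfl, rfl⟩ := hu s t h1 h2 h3 h4 hxy
    exact ⟨rfl, rfl⟩
  · rw [card_union_of_disjoint hd, hf.card hj, hg.card hj']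
    exact hk

lemma P1 {f : ℕ → V} {N : ℕ} (hf : IP G f N) {q : V} (hq : ∀ t < N, f t ≠ q) {i : ℕ} (hi : i < N)
    (h1 : G.Adj (f i) q) (hu : ∀ t < N, G.Adj (f t) q → t = i) : Big G (N + 1) :=
  two_seg (g := fun _ => q) (M := 1) (i := 0) (j := N) (i' := 0) (j' := 1) (a := i) (b := 0) hf
    ⟨fun s t _ _ _ => by omega, fun s t _ _ => by simp; omega⟩ le_rfl le_rfl (by omega) hi
    le_rfl (by omega) h1 (fun s _ _ hs _ _ => hq s hs)
    (fun s t _ hs _ ht h => ⟨hu s hs h, by omega⟩) (by omega)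

lemma P3 {f : ℕ → V} {N : ℕ} (hf : IP G f N) {q q' : V} (hq : ∀ t < N, f t ≠ q)
    (hq' : ∀ t < N, f t ≠ q') (hqq : G.Adj q q') (hn : ∀ t < N, ¬ G.Adj (f t) q') {i j k : ℕ}
    (hij : i < j) (hjk : j < k) (hk : k < N) (h1 : G.Adj (f i) q) (h2 : G.Adj (f k) q)
    (hu : ∀ t < N, G.Adj (f t) q → t = i ∨ t = j ∨ t = k) : Big G (N + 1) := by
  have t1 : Tr G ({q} ∪ {q'}) := Tr.join q q' (Tr.single _) (Tr.single _)
    (by simp [hqq.ne]) (by simp) (by simp) hqq (by simp)
  have d2 : Disjoint (seg f 0 j) ({q} ∪ {q'}) := by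
    rw [Finset.disjoint_left]
    simp only [mem_seg, mem_union, mem_singleton]
    rintro _ ⟨s, -, h2, rfl⟩ (e | e)
    · exact hq s (by omega) e
    · exact hq' s (by omega) e
  have t2 : Tr G (seg f 0 j ∪ ({q} ∪ {q'})) := by
    refine Tr.join (f i) q (hf.tr (by omega) (by omega)) t1 d2
      (mem_seg.2 ⟨i, by omega, hij, rfl⟩) (by simp) h1 ?_
    simp only [mem_seg, mem_union, mem_singleton]
    rintro _ ⟨s, -, h2, rfl⟩ _ (rfl | rfl) hxy
    · have := hu s (by omega) hxy
      exact ⟨by congr 1; omega, rfl⟩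
    · exact absurd hxy (hn s (by omega))
  have d3 : Disjoint (seg f (j + 1) N) (seg f 0 j ∪ ({q} ∪ {q'})) := by
    rw [Finset.disjoint_left]
    simp only [mem_seg, mem_union, mem_singleton]
    rintro _ ⟨s, h1, h2, rfl⟩ (⟨t, -, h4, e⟩ | e | e)
    · have := hf.inj t s (by omega) h2 e
      omega
    · exact hq s (by omega) e
    · exact hq' s (by omega) e
  refine ⟨_, Tr.join (f k) q (hf.tr (by omega) le_rfl) t2 d3
    (mem_seg.2 ⟨k, by omega, hk, rfl⟩) (by simp) h2 ?_, ?_⟩
  · simp only [mem_seg, mem_union, mem_singleton]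
    rintro _ ⟨s, h1, h2, rfl⟩ _ (⟨t, -, h4, rfl⟩ | rfl | rfl) hxy
    · have := (hf.adj s t h2 (by omega)).1 hxy
      omega
    · have := hu s (by omega) hxy
      exact ⟨by congr 1; omega, rfl⟩
    · exact absurd hxy (hn s (by omega))
  · rw [card_union_of_disjoint d3, card_union_of_disjoint d2, hf.card le_rfl, hf.card (by omega),
      card_union_of_disjoint (by simp [hqq.ne]), card_singleton, card_singleton]
    omega

end Pool.Agent.H.MP_40785c_co
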