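import Pool.Agent.H.MP_40785c_co.A

namespace Pool.Agent.H.MP_40785c_co

open Finset SimpleGraph

variable {V : Type} [DecidableEq V] {G : SimpleGraph V}

omit [DecidableEq V] in
lemma adjd (hG : G.Connected) (a : V) {x y : V} (h : G.Adj x y) :
    G.dist a y ≤ G.dist a x + 1 := by
  have := hG.dist_triangle (u := a) (v := x) (w := y)
  rwa [dist_eq_one_iff_adj.2 h] at this

omit [DecidableEq V] in
lemma chain (hG : G.Connected) {g : ℕ → V} {k : ℕ} (h : ∀ s < k, G.Adj (g s) (g (s + 1)))
    {s t : ℕ} (hst : s ≤ t) (ht : t ≤ k) : G.dist (g s) (g t) ≤ t - s := by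
  induction t, hst using Nat.le_induction with
  | base => simp
  | succ t hst ih =>
    have := adjd hG (g s) (h t (by omega))
    have := ih (by omega)
    omega

/-- A geodesic. -/
def Geo (G : SimpleGraph V) (g : ℕ → V) (k : ℕ) : Prop :=
  ∀ s t, s ≤ t → t ≤ k → G.dist (g s) (g t) = t - s

omit [DecidableEq V] in
lemma geo_of (hG : G.Connected) {g : ℕ → V} {k : ℕ} (h : ∀ s < k, G.Adj (g s) (g (s + 1)))
    (hk : k ≤ G.dist (g 0) (g k)) : Geo G g k := by
  intro s t hst ht
  have a1 := chain hG h hst ht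
  have a2 := chain hG h (Nat.zero_le s) (by omega)
  have a3 := chain hG h ht le_rfl
  have a4 := hG.dist_triangle (u := g 0) (v := g s) (w := g k)
  have a5 := hG.dist_triangle (u := g s) (v := g t) (w := g k)
  omega

omit [DecidableEq V] in
lemma exists_geo (hG : G.Connected) (a b : V) :
    ∃ g : ℕ → V, g 0 = a ∧ g (G.dist a b) = b ∧ Geo G g (G.dist a b) := by
  obtain ⟨p, hp⟩ := hG.exists_walk_length_eq_dist a b
  have e : p.getVert (G.dist a b) = b := by rw [← hp]; simp
  refine ⟨p.getVert, by simp, e, geo_of hG (fun s hs => p.adj_getVert_succ (by omega)) ?_⟩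
  rw [e]; simp

omit [DecidableEq V] in
lemma Geo.ip {g : ℕ → V} {k : ℕ} (h : Geo G g k) : IP G g (k + 1) := by
  refine ⟨fun s t hs ht e => ?_, fun s t hs ht => ?_⟩
  · rcases le_total s t with h1 | h1
    · have := h s t h1 (by omega)
      rw [e, dist_self] at this
      omega
    · have := h t s h1 (by omega)
      rw [e, dist_self] at this
      omega
  · rw [← dist_eq_one_iff_adj]
    rcases le_total s t with h1 | h1
    · rw [h s t h1 (by omega)]; omega
    · rw [SimpleGraph.dist_comm, h t s h1 (by omega)]; omega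

lemma cyc (hG : G.Connected) {w u : V} (hw : ∀ x, G.Adj w x → x = u) {X : ℕ → V} {r : ℕ}
    (hr : 2 ≤ r) (inj : ∀ s t, s < 2 * r → t < 2 * r → X s = X t → s = t)
    (adj : ∀ s t, s < 2 * r → t < 2 * r → (G.Adj (X s) (X t) ↔
      s + 1 = t ∨ t + 1 = s ∨ (s = 0 ∧ t + 1 = 2 * r) ∨ (t = 0 ∧ s + 1 = 2 * r)))
    (h1 : r ≤ G.dist (X 0) (X r)) (h2 : r ≤ G.dist (X (2 * r - 1)) (X (r - 1))) :
    Big G (2 * r) := by
  classical
  have up : ∀ s t, s ≤ t → t < 2 * r →
      G.dist (X s) (X t) ≤ t - s ∧ G.dist (X s) (X t) ≤ s + 2 * r - t := fun s t hst ht => by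
    have hc : ∀ s < 2 * r - 1, G.Adj (X s) (X (s + 1)) := fun s hs =>
      (adj _ _ (by omega) (by omega)).2 (by omega)
    refine ⟨chain hG hc hst (by omega), ?_⟩
    have a1 := chain hG hc (Nat.zero_le s) (by omega)
    have a2 := chain hG hc (show t ≤ 2 * r - 1 by omega) le_rfl
    have a3 := adjd hG (X t) ((adj (2 * r - 1) 0 (by omega) (by omega)).2 (by omega))
    have a4 := hG.dist_triangle (u := X t) (v := X 0) (w := X s)
    rw [SimpleGraph.dist_comm]
    omega
  have up' : ∀ s t, s < 2 * r → t < 2 * r → G.dist (X s) (X t) ≤ (t - s) + (s - t) ∧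
      G.dist (X s) (X t) ≤ 2 * r - ((t - s) + (s - t)) := fun s t hs ht => by
    rcases le_total s t with h | h
    · have := up s t h ht; omega
    · have := up t s h hs; rw [SimpleGraph.dist_comm]; omega
  obtain ⟨q, hq, hne, hq'⟩ : ∃ q, (∀ t < 2 * r, X t ≠ q) ∧ (∃ t < 2 * r, G.Adj (X t) q) ∧
      ((∀ s t, s < 2 * r → t < 2 * r → G.Adj (X s) q → G.Adj (X t) q → s = t) ∨
        ∃ q', G.Adj q q' ∧ ∀ t < 2 * r, X t ≠ q' ∧ ¬ G.Adj (X t) q') := by
    have hwX : ∀ t < 2 * r, X t ≠ w := by
      intro t ht e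
      have b1 := hw _ (e ▸ (adj t (if t + 1 < 2 * r then t + 1 else 0) ht
        (by split_ifs <;> omega)).2 (by split_ifs <;> omega))
      have b2 := hw _ (e ▸ (adj t (if t = 0 then 2 * r - 1 else t - 1) ht
        (by split_ifs <;> omega)).2 (by split_ifs <;> omega))
      have := inj _ _ (by split_ifs <;> omega) (by split_ifs <;> omega) (b1.trans b2.symm)
      split_ifs at this <;> omega
    by_cases hc : ∃ t < 2 * r, G.Adj (X t) w
    · exact ⟨w, hwX, hc, Or.inl fun s t hs ht a b =>
        inj s t hs ht ((hw _ a.symm).trans (hw _ b.symm).symm)⟩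
    · obtain ⟨p⟩ := hG.preconnected w (X 0)
      obtain ⟨d, -, d1, d2⟩ := p.exists_boundary_dart
        {x | ∀ t < 2 * r, X t ≠ x ∧ ¬ G.Adj (X t) x}
        (fun t ht => ⟨hwX t ht, fun h => hc ⟨t, ht, h⟩⟩) (fun h => (h 0 (by omega)).1 rfl)
      have d3 : ∀ t < 2 * r, X t ≠ d.snd := fun t ht e => (d1 t ht).2 (e ▸ d.adj.symm)
      refine ⟨d.snd, d3, ?_, Or.inr ⟨d.fst, d.adj.symm, d1⟩⟩
      by_contra hh
      exact d2 fun t ht => ⟨d3 t ht, fun h => hh ⟨t, ht, h⟩⟩
  set Nb := (range (2 * r)).filter fun t => G.Adj (X t) q with hNb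
  have mem : ∀ t, t ∈ Nb ↔ t < 2 * r ∧ G.Adj (X t) q := fun t => by simp [hNb]
  have hne' : Nb.Nonempty := by
    obtain ⟨t, a, b⟩ := hne
    exact ⟨t, (mem t).2 ⟨a, b⟩⟩
  have con : ∀ a b s t, a < 2 * r → b < 2 * r → s ∈ Nb → t ∈ Nb →
      G.dist (X a) (X b) ≤ G.dist (X a) (X s) + 2 + G.dist (X t) (X b) := fun a b s t _ _ hs ht => by
    have a1 := adjd hG (X a) ((mem s).1 hs).2
    have a2 := adjd hG (X a) ((mem t).1 ht).2.symm
    have a3 := hG.dist_triangle (u := X a) (v := X t) (w := X b)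
    omega
  have key : ∀ s ∈ Nb, ∀ t ∈ Nb,
      (if s < r then s else 2 * r - s + 1) ≤ (if t < r then t else 2 * r - t + 1) + 3 ∧
      ((if s < r then s else 2 * r - s + 1) = (if t < r then t else 2 * r - t + 1) → s = t) := by
    intro s hs t ht
    have hs' := ((mem s).1 hs).1
    have ht' := ((mem t).1 ht).1
    have c1 := con 0 r t s (by omega) (by omega) ht hs
    have c2 := con (2 * r - 1) (r - 1) t s (by omega) (by omega) ht hs
    have c3 := con (2 * r - 1) (r - 1) s t (by omega) (by omega) hs ht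
    have u1 := up' 0 t (by omega) ht'
    have u2 := up' s r hs' (by omega)
    have u3 := up' (2 * r - 1) t (by omega) ht'
    have u4 := up' s (r - 1) hs' (by omega)
    have u5 := up' (2 * r - 1) s (by omega) hs'
    have u6 := up' t (r - 1) ht' (by omega)
    split_ifs <;> omega
  have h4 : Nb.card ≤ 4 := by
    obtain ⟨t0, ht0, hmin⟩ := exists_min_image Nb (fun t => if t < r then t else 2 * r - t + 1) hne'
    have := card_le_card_of_injOn (s := Nb) (fun t => if t < r then t else 2 * r - t + 1)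
      (t := Icc (if t0 < r then t0 else 2 * r - t0 + 1) ((if t0 < r then t0 else 2 * r - t0 + 1) + 3))
      (fun t ht => by
        rw [coe_Icc]
        exact ⟨hmin t ht, (key t ht t0 ht0).1⟩)
      (fun s hs t ht e => (key s hs t ht).2 e)
    rw [Nat.card_Icc] at this
    omega
  obtain ⟨k, hk, hc⟩ : ∃ k < 2 * r, (Nb.erase k).card = 1 ∨ (Nb.erase k).card = 3 := by
    have h0 := hne'.card_pos
    by_cases hp : Nb.card = 2 ∨ Nb.card = 4
    · obtain ⟨k, hk⟩ := hne'
      refine ⟨k, ((mem k).1 hk).1, ?_⟩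
      rw [card_erase_of_mem hk]; omega
    · obtain ⟨k, hk, hk'⟩ := exists_mem_notMem_of_card_lt_card (s := Nb) (t := range (2 * r))
        (by rw [card_range]; omega)
      refine ⟨k, mem_range.1 hk, ?_⟩
      rw [erase_eq_of_notMem hk']; omega
  set ι : ℕ → ℕ := fun t => if k + 1 + t < 2 * r then k + 1 + t else k + 1 + t - 2 * r with hι
  have hιlt : ∀ t < 2 * r - 1, ι t < 2 * r := fun t ht => by
    simp only [hι]; split_ifs <;> omega
  have hF : IP G (fun t => X (ι t)) (2 * r - 1) := by
    refine ⟨fun s t hs ht e => ?_, fun s t hs ht => ?_⟩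
    · have := inj _ _ (hιlt s hs) (hιlt t ht) e
      simp only [hι] at this
      split_ifs at this <;> omega
    · rw [adj _ _ (hιlt s hs) (hιlt t ht)]
      simp only [hι]
      split_ifs <;> omega
  set Nb' := (range (2 * r - 1)).filter fun t => G.Adj (X (ι t)) q with hNb'
  have mem' : ∀ t, t ∈ Nb' ↔ t < 2 * r - 1 ∧ G.Adj (X (ι t)) q := fun t => by simp [hNb']
  have hcc : Nb'.card = (Nb.erase k).card := by
    refine card_bij (fun t _ => ι t) (fun t ht => ?_) (fun s hs t ht e => ?_) (fun s hs => ?_)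
    · obtain ⟨a, b⟩ := (mem' t).1 ht
      refine mem_erase.2 ⟨?_, (mem _).2 ⟨hιlt t a, b⟩⟩
      simp only [hι]; split_ifs <;> omega
    · exact hF.inj s t ((mem' s).1 hs).1 ((mem' t).1 ht).1 (by simp only [e])
    · obtain ⟨a, b⟩ := mem_erase.1 hs
      obtain ⟨b1, b2⟩ := (mem s).1 b
      have e : ι (if k < s then s - k - 1 else s + 2 * r - k - 1) = s := by
        simp only [hι]; split_ifs <;> omega
      exact ⟨_, (mem' _).2 ⟨by split_ifs <;> omega, by rw [e]; exact b2⟩, e⟩
  rw [show 2 * r = 2 * r - 1 + 1 by omega]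
  rw [← hcc] at hc
  rcases hc with hc | hc
  · obtain ⟨i, hi⟩ := card_eq_one.1 hc
    have a := (mem' i).1 (by rw [hi]; simp)
    exact P1 hF (fun t ht => hq _ (hιlt t ht)) a.1 a.2 fun t ht h => by
      simpa [hi] using (mem' t).2 ⟨ht, h⟩
  · obtain ⟨a, b, c, hab, hac, hbc, e⟩ := card_eq_three.1 hc
    have ha := (mem' a).1 (by rw [e]; simp)
    have hb := (mem' b).1 (by rw [e]; simp)
    have hc' := (mem' c).1 (by rw [e]; simp)
    rcases hq' with hq' | ⟨q', hqq, hq'⟩
    · exact absurd (hF.inj _ _ ha.1 hb.1 (by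
        simp only [hq' _ _ (hιlt a ha.1) (hιlt b hb.1) ha.2 hb.2])) hab
    have hu : ∀ t < 2 * r - 1, G.Adj (X (ι t)) q → t = a ∨ t = b ∨ t = c := fun t ht h => by
      simpa [e] using (mem' t).2 ⟨ht, h⟩
    have fin : ∀ i j l, i < j → j < l → l < 2 * r - 1 → G.Adj (X (ι i)) q → G.Adj (X (ι l)) q →
        (∀ t, t = a ∨ t = b ∨ t = c → t = i ∨ t = j ∨ t = l) → Big G (2 * r - 1 + 1) :=
      fun i j l h1 h2 h3 h4 h5 h6 => P3 hF (fun t ht => hq _ (hιlt t ht))
        (fun t ht => (hq' _ (hιlt t ht)).1) hqq (fun t ht => (hq' _ (hιlt t ht)).2) h1 h2 h3 h4 h5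
        fun t ht h => h6 t (hu t ht h)
    rcases lt_or_gt_of_ne hab with h1 | h1 <;> rcases lt_or_gt_of_ne hac with h2 | h2 <;>
      rcases lt_or_gt_of_ne hbc with h3 | h3
    · exact fin a b c h1 h3 hc'.1 ha.2 hc'.2 (by omega)
    · exact fin a c b h2 h3 hb.1 ha.2 hb.2 (by omega)
    · omega
    · exact fin c a b h2 h1 hb.1 hc'.2 hb.2 (by omega)
    · exact fin b a c h1 h2 hc'.1 hb.2 hc'.2 (by omega)
    · omega
    · exact fin b c a h3 h2 ha.1 hb.2 ha.2 (by omega)
    · exact fin c b a h3 h1 ha.1 hc'.2 ha.2 (by omega)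

lemma core2 (hG : G.Connected) {w u : V} (hw : ∀ x, G.Adj w x → x = u) {f b : ℕ → V} {r : ℕ}
    (hr : 2 ≤ r) (hf : IP G f (2 * r - 1)) (h1 : r ≤ G.dist (f 0) (f r)) (hb : Geo G b r)
    (hb0 : b 0 = f (r - 1)) (hc : ∀ t, r - 1 ≤ t → t < 2 * r - 1 → t + 2 ≤ G.dist (b 1) (f t) + r) :
    Big G (2 * r) := by
  classical
  have ch : ∀ s < 2 * r - 2, G.Adj (f s) (f (s + 1)) := fun s hs =>
    (hf.adj _ _ (by omega) (by omega)).2 (by omega)
  have up : ∀ s t, s < 2 * r - 1 → t < 2 * r - 1 → G.dist (f s) (f t) ≤ (t - s) + (s - t) :=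
    fun s t hs ht => by
      rcases le_total s t with h | h
      · have := chain hG ch h (by omega); omega
      · have := chain hG ch h (by omega); rw [SimpleGraph.dist_comm]; omega
  have hbi := hb.ip
  have lev : ∀ i ≤ r, G.dist (f (r - 1)) (b i) = i := fun i hi => by
    rw [← hb0]; exact hb 0 i (by omega) hi
  obtain ⟨i, hi, hmax⟩ := exists_max_image ((Icc 1 r).filter fun i =>
    ∃ t < 2 * r - 1, f t = b i ∨ G.Adj (f t) (b i)) id ⟨1, by
      simp only [mem_filter, mem_Icc]
      exact ⟨by omega, r - 1, by omega, Or.inr (hb0 ▸ (hbi.adj 0 1 (by omega) (by omega)).2 (by omega))⟩⟩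
  simp only [mem_filter, mem_Icc, id] at hi hmax
  obtain ⟨⟨i1, ir⟩, hex⟩ := hi
  have tail : ∀ j, i < j → j ≤ r → ∀ t < 2 * r - 1, f t ≠ b j ∧ ¬ G.Adj (f t) (b j) :=
    fun j h1 h2 t ht => ⟨fun e => by have := hmax j ⟨by omega, t, ht, Or.inl e⟩; omega,
      fun e => by have := hmax j ⟨by omega, t, ht, Or.inr e⟩; omega⟩
  have hni : ∀ t < 2 * r - 1, f t ≠ b i := fun t ht e => by
    rcases lt_or_eq_of_le ir with h | h
    · exact (tail (i + 1) (by omega) h t ht).2
        (e ▸ (hbi.adj i (i + 1) (by omega) (by omega)).2 (by omega))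
    · have a1 := lev i ir
      have a2 := up (r - 1) t (by omega) ht
      rw [e] at a2
      omega
  obtain ⟨t0, ht0, hm0⟩ := exists_max_image ((range (2 * r - 1)).filter fun t =>
    G.Adj (f t) (b i)) id (by
      obtain ⟨t, ht, e | e⟩ := hex
      · exact absurd e (hni t ht)
      · exact ⟨t, by simp [ht, e]⟩)
  simp only [mem_filter, mem_range, id] at ht0 hm0
  have low : ∀ t < 2 * r - 1, G.Adj (f t) (b i) → i ≤ (t - (r - 1)) + (r - 1 - t) + 1 :=
    fun t ht h => by
      have a1 := lev i ir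
      have a2 := up (r - 1) t (by omega) ht
      have a3 := adjd hG (f (r - 1)) h
      omega
  by_cases h0 : t0 ≤ r - 1
  · have := low t0 ht0.1 ht0.2
    refine two_seg (i := t0) (j := 2 * r - 1) (i' := i) (j' := r + 1) (a := t0) (b := i) hf hbi
      le_rfl le_rfl le_rfl ht0.1 le_rfl (by omega) ht0.2 (fun s t _ hs h3 h4 => ?_)
      (fun s t h1 hs h3 h4 h => ?_) (by omega)
    · rcases lt_or_eq_of_le h3 with h | h
      · exact (tail t h (by omega) s hs).1
      · exact h ▸ hni s hs
    · rcases lt_or_eq_of_le h3 with h' | h'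
      · exact absurd h (tail t h' (by omega) s hs).2
      · subst h'
        have := hm0 s ⟨hs, h⟩
        omega
  have hi : ∀ t < 2 * r - 1, r - 1 < t → G.Adj (f t) (b i) → t + 2 = r + i := fun t ht h1 h => by
    have a1 := low t ht h
    have a2 := hc t (by omega) ht
    have a3 := adjd hG (b 1) h.symm
    have a4 := hb 1 i i1 ir
    omega
  have e0 := hi t0 ht0.1 (by omega) ht0.2
  have hu : ∀ t < 2 * r - 1, G.Adj (f t) (b i) → t = r - i ∨ t = t0 := fun t ht h => by
    by_cases h2 : r - 1 < t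
    · have := hi t ht h2 h
      omega
    · have a1 := low t ht h
      have a2 := adjd hG (f 0) h
      have a3 := adjd hG (f 0) ht0.2.symm
      have a4 := hG.dist_triangle (u := f 0) (v := f t0) (w := f r)
      have a5 := up 0 t (by omega) ht
      have a6 := up t0 r ht0.1 (by omega)
      omega
  by_cases h2 : G.Adj (f (r - i)) (b i)
  swap
  · rw [show 2 * r = 2 * r - 1 + 1 by omega]
    exact P1 hf hni ht0.1 ht0.2 fun t ht h => (hu t ht h).resolve_left fun e => h2 (e ▸ h)
  rcases lt_or_eq_of_le ir with h | h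
  · rw [show 2 * r = 2 * r - 1 + 1 by omega]
    exact P3 (i := r - i) (j := r - 1) hf hni (fun t ht => (tail (i + 1) (by omega) h t ht).1)
      ((hbi.adj i (i + 1) (by omega) (by omega)).2 (by omega))
      (fun t ht => (tail (i + 1) (by omega) h t ht).2) (by omega) (by omega) ht0.1 h2 ht0.2
      fun t ht h => by have := hu t ht h; omega
  subst h
  have ad : ∀ t < 2 * i - 1, (G.Adj (f t) (b i) ↔ t = 0 ∨ t + 2 = 2 * i) := fun t ht =>
    ⟨fun h => by have := hu t ht h; omega, fun h => by
      rcases h with h | h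
      · rwa [show t = i - i by omega]
      · rw [show t = t0 by omega]; exact ht0.2⟩
  refine cyc hG hw (X := fun t => if t < 2 * i - 1 then f t else b i) hr (fun s t hs ht e => ?_)
    (fun s t hs ht => ?_) ?_ ?_
  · split_ifs at e with a1 a2 a2
    · exact hf.inj s t a1 a2 e
    · exact absurd e (hni s a1)
    · exact absurd e.symm (hni t a2)
    · omega
  · split_ifs with a1 a2 a2
    · rw [hf.adj s t a1 a2]; omega
    · rw [ad s a1]; omega
    · rw [G.adj_comm, ad t a2]; omega
    · simp; omega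
  · rw [if_pos (by omega), if_pos (by omega)]; exact h1
  · rw [if_neg (by omega), if_pos (by omega), SimpleGraph.dist_comm, lev i le_rfl]

lemma core1 (hG : G.Connected) {w u : V} (hw : ∀ x, G.Adj w x → x = u) {r : ℕ} (hr : 2 ≤ r)
    (hecc : ∀ x, ∃ y, r ≤ G.dist x y) {c v : V} (hc : ∀ x, x ≠ v → G.dist c x + 1 ≤ r) :
    Big G (2 * r) := by
  classical
  obtain ⟨g, g0, gr, hg⟩ := exists_geo hG c v
  have hcv : G.dist c v = r := by
    obtain ⟨y, hy⟩ := hecc c
    have e : y = v := by
      by_contra hne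
      have := hc y hne
      omega
    rw [e] at hy
    have a1 := hg 0 (G.dist c v - 1) (by omega) (by omega)
    have a2 := hc (g (G.dist c v - 1)) fun e => by rw [e, g0] at a1; omega
    rw [g0] at a1
    omega
  rw [hcv] at gr hg
  have gi := hg.ip
  obtain ⟨y, hy⟩ := hecc (g 2)
  obtain ⟨z, hz⟩ := hecc (g 1)
  have hyv : y ≠ v := fun e => by
    have := hg 2 r hr le_rfl
    rw [gr, ← e] at this
    omega
  have hzv : z ≠ v := fun e => by
    have := hg 1 r (by omega) le_rfl
    rw [gr, ← e] at this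
    omega
  have l1 := hc y hyv
  have l2 := hc z hzv
  have lg : ∀ j ≤ r, G.dist c (g j) = j := fun j hj => by
    rw [← g0]; exact hg 0 j (by omega) hj
  obtain ⟨p, p0, pl, hp⟩ := exists_geo hG c y
  obtain ⟨q, q0, ql, hq⟩ := exists_geo hG c z
  set L := G.dist c y with hL
  have pi := hp.ip
  have qi := hq.ip
  have lp : ∀ j ≤ L, G.dist c (p j) = j := fun j hj => by
    rw [← p0]; exact hp 0 j (by omega) hj
  have lp' : ∀ j ≤ L, G.dist (p j) y = L - j := fun j hj => by
    rw [← pl]; exact hp j L hj le_rfl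
  have g2 : ∀ j ≤ r, G.dist (g 2) (g j) = (j - 2) + (2 - j) := fun j hj => by
    rcases le_total 2 j with h | h
    · rw [hg 2 j h hj]; omega
    · rw [SimpleGraph.dist_comm, hg j 2 h hr]; omega
  have hne : ∀ l ≤ L, ∀ j, 1 ≤ j → j ≤ r → p l ≠ g j := fun l hl j h1 hj e => by
    have a1 := lp l hl
    have a2 := lg j hj
    have a3 := lp' l hl
    have a4 := g2 j hj
    have a5 := hG.dist_triangle (u := g 2) (v := g j) (w := y)
    rw [e] at a1 a3
    omega
  have had : ∀ l ≤ L, ∀ j, 1 ≤ j → j ≤ r → G.Adj (p l) (g j) →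
      j = 1 ∧ (l = 0 ∨ (l = 1 ∧ L + 1 = r)) := fun l hl j h1 hj e => by
    have a1 := lp l hl
    have a2 := lg j hj
    have a3 := lp' l hl
    have a4 := g2 j hj
    have a5 := hG.dist_triangle (u := g 2) (v := p l) (w := y)
    have a6 := adjd hG (g 2) e.symm
    have a7 := adjd hG c e
    omega
  have hL2 : r ≤ L + 2 := by
    have a4 := g2 0 (by omega)
    have a5 := hG.dist_triangle (u := g 2) (v := c) (w := y)
    rw [g0] at a4
    omega
  have h01 : G.Adj (p 0) (g 1) := by
    rw [p0, ← g0]; exact (gi.adj 0 1 (by omega) (by omega)).2 (by omega)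
  have hzl : G.dist c z + 1 = r := by
    have a1 := hG.dist_triangle (u := g 1) (v := c) (w := z)
    have a2 := lg 1 (by omega)
    rw [SimpleGraph.dist_comm] at a2
    omega
  have hb : Geo G (fun i => if i = 0 then g 1 else q (i - 1)) r := by
    refine geo_of hG (fun s hs => ?_) ?_
    · rw [if_neg (Nat.succ_ne_zero s)]
      split_ifs with h
      · subst h
        rw [show 0 + 1 - 1 = 0 by rfl, q0, ← p0]; exact h01.symm
      · exact (qi.adj _ _ (by omega) (by omega)).2 (by omega)
    · rw [if_pos rfl, if_neg (by omega), show r - 1 = G.dist c z by omega, ql]; exact hz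
  have fin : ∀ k, k ≤ 1 → L + 2 = r + k → G.Adj (p k) (g 1) →
      (∀ l, k < l → l ≤ L → ¬ G.Adj (p l) (g 1)) → Big G (2 * r) := fun k k1 k2 k3 k4 => by
    refine core2 hG hw (f := fun t => if t < r - 1 then p (L - t) else g (t + 2 - r)) hr
      ⟨fun s t hs ht e => ?_, fun s t hs ht => ?_⟩ ?_ hb ?_ fun t h1 h2 => ?_
    · split_ifs at e with a1 a2 a2
      · have := pi.inj _ _ (by omega) (by omega) e; omega
      · exact absurd e (hne _ (by omega) _ (by omega) (by omega))
      · exact absurd e.symm (hne _ (by omega) _ (by omega) (by omega))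
      · have := gi.inj _ _ (by omega) (by omega) e; omega
    · have cr : ∀ s t, s < r - 1 → ¬ t < r - 1 → t < 2 * r - 1 →
          (G.Adj (p (L - s)) (g (t + 2 - r)) ↔ s + 1 = t) := fun s t a1 a2 a3 =>
        ⟨fun h => by
          have b1 := had _ (by omega) _ (by omega) (by omega) h
          by_contra hh
          exact k4 (L - s) (by omega) (by omega) (b1.1 ▸ h), fun h => by
          rwa [show L - s = k by omega, show t + 2 - r = 1 by omega]⟩
      split_ifs with a1 a2 a2
      · rw [pi.adj _ _ (by omega) (by omega)]; omega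
      · rw [cr s t a1 a2 ht]; omega
      · rw [G.adj_comm, cr t s a2 a1 hs]; omega
      · rw [gi.adj _ _ (by omega) (by omega)]; omega
    · rw [if_pos (by omega), if_neg (by omega), show r + 2 - r = 2 by omega, Nat.sub_zero, pl,
        SimpleGraph.dist_comm]
      exact hy
    · rw [if_pos rfl, if_neg (by omega), show r - 1 + 2 - r = 1 by omega]
    · rw [if_neg (by omega), if_neg (by omega), show 1 - 1 = 0 by rfl, q0, lg _ (by omega)]
      omega
  by_cases hA : 1 ≤ L ∧ G.Adj (p 1) (g 1)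
  · have := had 1 hA.1 1 le_rfl (by omega) hA.2
    exact fin 1 le_rfl (by omega) hA.2 fun l h1 h2 h => by
      have := had l h2 1 le_rfl (by omega) h; omega
  have hno : ∀ l, 0 < l → l ≤ L → ¬ G.Adj (p l) (g 1) := fun l h1 h2 h => by
    have := had l h2 1 le_rfl (by omega) h
    obtain rfl : l = 1 := by omega
    exact hA ⟨h2, h⟩
  by_cases hB : L + 2 = r
  · exact fin 0 (by omega) hB h01 hno
  refine two_seg (i := 0) (j := L + 1) (i' := 1) (j' := r + 1) (a := 0) (b := 1) pi gi
    le_rfl le_rfl le_rfl (by omega) le_rfl (by omega) h01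
    (fun s t _ hs h3 h4 => hne s (by omega) t h3 (by omega)) (fun s t _ hs h3 h4 h => ?_) (by omega)
  have := had s (by omega) t h3 (by omega) h
  refine ⟨?_, this.1⟩
  by_contra hh
  exact hno s (by omega) (by omega) (this.1 ▸ h)

theorem main (r : ℕ) (hr : 2 ≤ r) (n : ℕ) : ∀ (V : Type) [Fintype V] [DecidableEq V]
    (G : SimpleGraph V), Fintype.card V = n → G.Connected → ∀ w u : V, (∀ x, G.Adj w x → x = u) →
    (∀ x, ∃ y, r ≤ G.dist x y) → Big G (2 * r) := by
  induction n with
  | zero => intro V _ _ G hn hG; have := hG.nonempty; have := Fintype.card_pos (α := V); omega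
  | succ n ih =>
    intro V _ _ G hn hG w u hw hecc
    classical
    obtain ⟨v, -, hv⟩ := exists_max_image univ (G.dist w) ⟨w, mem_univ _⟩
    have hwv : r ≤ G.dist w v := by
      obtain ⟨y, hy⟩ := hecc w
      exact hy.trans (hv y (mem_univ _))
    have hw' : w ≠ v := fun e => by rw [e, dist_self] at hwv; omega
    have hu' : ∀ x, G.Adj w x → x ≠ v := fun x h e => by
      rw [← e, dist_eq_one_iff_adj.2 h] at hwv; omega
    have hcon : (G.induce {x | x ≠ v}).Connected := by
      have : ∀ k, ∀ x : {x | x ≠ v}, G.dist w x = k →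
          (G.induce {x | x ≠ v}).Reachable ⟨w, hw'⟩ x := by
        intro k
        induction k with
        | zero =>
          intro x hx
          have : w = x := hG.dist_eq_zero_iff.1 hx
          subst this
          rfl
        | succ k ih =>
          intro x hx
          obtain ⟨g, g0, gk, hg⟩ := exists_geo hG w x
          rw [hx] at gk hg
          have a1 := hg 0 k (by omega) (by omega)
          rw [g0] at a1
          have a2 : g k ≠ v := fun e => by
            have := hv x (mem_univ _)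
            rw [e] at a1
            omega
          refine (ih ⟨g k, a2⟩ a1).trans (Adj.reachable ?_)
          have := (hg.ip.adj k (k + 1) (by omega) (by omega)).2 (by omega)
          rwa [gk] at this
      have _ : Nonempty {x | x ≠ v} := ⟨⟨w, hw'⟩⟩
      exact ⟨fun a b => (this _ a rfl).symm.trans (this _ b rfl)⟩
    by_cases hh : ∀ x : {x | x ≠ v}, ∃ y, r ≤ (G.induce {x | x ≠ v}).dist x y
    · obtain ⟨S, h1, h2⟩ := ih {x | x ≠ v} (G.induce _) (by
        have := Fintype.card_subtype_compl (fun x : V => x = v)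
        simp only [Fintype.card_unique] at this
        rw [hn] at this
        exact this) hcon ⟨w, hw'⟩ (if h : u = v then ⟨w, hw'⟩ else ⟨u, h⟩) (fun x hx => by
          have e := hw x hx
          rw [dif_neg (e ▸ hu' x hx)]
          exact Subtype.ext e) hh
      exact ⟨_, h1.map, by rwa [card_map]⟩
    · push Not at hh
      obtain ⟨c, hc⟩ := hh
      refine core1 hG hw hr hecc (c := c) (v := v) fun x hx => ?_
      obtain ⟨p, hp⟩ := hcon.exists_walk_length_eq_dist c ⟨x, hx⟩
      have a1 := hc ⟨x, hx⟩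
      have a2 := dist_le (p.map (Embedding.induce _).toHom)
      rw [Walk.length_map] at a2
      have a3 : G.dist c x ≤ p.length := a2
      omega

end Pool.Agent.H.MP_40785c_co
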